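import Mathlib

namespace Pool.Agent.Results.MP_b9f640_co.StarProducts

open List

/-- A path of `G`, given by the list of its vertices in order. Its order is the length of the
list. -/
def IsPathList {V : Type*} (G : SimpleGraph V) (P : List V) : Prop :=
  P ≠ [] ∧ P.Nodup ∧ P.IsChain G.Adj

/-- A Hamiltonian cycle of `G`, given by the cyclic list of its vertices: at least three entries,
every vertex exactly once, consecutive vertices adjacent, and the last one adjacent to the
first. -/
structure HamCyc {V : Type*} (G : SimpleGraph V) (L : List V) : Prop where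
  len : 3 ≤ L.length
  nodup : L.Nodup
  all : ∀ v, v ∈ L
  chain : L.IsChain G.Adj
  close : ∀ a ∈ L.getLast?, ∀ b ∈ L.head?, G.Adj a b

/-- The path `P` lies on some Hamiltonian cycle of `G`: the cycle, started at the first vertex of
`P` and traversed in the direction of `P`, begins with `P`. -/
def LiesOnHam {V : Type*} (G : SimpleGraph V) (P : List V) : Prop :=
  ∃ M : List V, HamCyc G (P ++ M)

/-- `k` is the Hamiltonian extension number of `G`. -/
def IsHamExtNumber {V : Type*} [Fintype V] (G : SimpleGraph V) (k : ℕ) : Prop :=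
  IsGreatest {k : ℕ | 1 ≤ k ∧ k ≤ Fintype.card V ∧
    ∀ P : List V, IsPathList G P → P.length ≤ k → LiesOnHam G P} k

section basics

variable {V W : Type*} {G : SimpleGraph V} {H : SimpleGraph W}

theorem ham_rot {A B : List V} (h : HamCyc G (A ++ B)) : HamCyc G (B ++ A) := by
  rcases A.eq_nil_or_concat with rfl | ⟨A', a, rfl⟩
  · simpa using h
  rcases B.eq_nil_or_concat with rfl | ⟨B', b, rfl⟩
  · simpa using h
  obtain ⟨h1, h2, h3, h4, h5⟩ := h
  rw [isChain_append] at h4
  refine ⟨by simpa [add_comm, add_left_comm] using h1, List.nodup_append_comm.1 h2, fun v => ?_, ?_, ?_⟩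
  · have := h3 v
    simp only [List.mem_append] at this ⊢
    tauto
  · rw [isChain_append]
    refine ⟨h4.2.1, h4.1, fun x hx y hy => h5 x ?_ y ?_⟩
    · rw [List.getLast?_append]; simp at hx ⊢; exact hx
    · rw [List.head?_append]; rw [Option.mem_def] at hy; rw [hy]; rfl
  · intro x hx y hy
    refine h4.2.2 x ?_ y ?_
    · rw [List.getLast?_append] at hx; simp at hx ⊢; exact hx
    · rw [List.head?_append] at hy
      rcases hB : (B'.concat b).head? with _ | c
      · simp at hB
      · rw [hB] at hy; exact hy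

theorem ham_reverse {A : List V} (h : HamCyc G A) : HamCyc G A.reverse := by
  obtain ⟨h1, h2, h3, h4, h5⟩ := h
  refine ⟨by simpa using h1, by simpa using h2, fun v => by simpa using h3 v, ?_, ?_⟩
  · rw [isChain_reverse]
    exact h4.imp (fun a b hab => hab.symm)
  · intro x hx y hy
    rw [List.getLast?_reverse] at hx
    rw [List.head?_reverse] at hy
    exact (h5 y hy x hx).symm

theorem lies_reverse {P : List V} (h : LiesOnHam G P) : LiesOnHam G P.reverse := by
  obtain ⟨M, hM⟩ := h
  refine ⟨M.reverse, ham_rot ?_⟩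
  rw [← List.reverse_append]
  exact ham_reverse hM

theorem lies_reverse_iff {P : List V} : LiesOnHam G P.reverse ↔ LiesOnHam G P :=
  ⟨fun h => by simpa using lies_reverse h, lies_reverse⟩

theorem path_reverse {P : List V} (h : IsPathList G P) : IsPathList G P.reverse := by
  refine ⟨by simpa using h.1, by simpa using h.2.1, ?_⟩
  rw [isChain_reverse]
  exact h.2.2.imp (fun a b hab => hab.symm)

/-- Transport along an isomorphism. -/
theorem ham_iso (φ : G ≃g H) {L : List V} (h : HamCyc G L) : HamCyc H (L.map φ) := by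
  obtain ⟨h1, h2, h3, h4, h5⟩ := h
  refine ⟨by simpa using h1, h2.map φ.injective, fun v => ?_, ?_, ?_⟩
  · rw [List.mem_map]; exact ⟨φ.symm v, h3 _, by simp⟩
  · rw [isChain_map]; exact h4.imp (fun a b hab => φ.map_adj_iff.2 hab)
  · intro x hx y hy
    rw [List.getLast?_map] at hx
    rw [List.head?_map] at hy
    simp only [Option.mem_def, Option.map_eq_some_iff] at hx hy
    obtain ⟨x', hx', rfl⟩ := hx
    obtain ⟨y', hy', rfl⟩ := hy
    exact φ.map_adj_iff.2 (h5 x' hx' y' hy')

theorem path_iso (φ : G ≃g H) {P : List V} (h : IsPathList G P) : IsPathList H (P.map φ) := by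
  refine ⟨by simpa using h.1, h.2.1.map φ.injective, ?_⟩
  rw [isChain_map]; exact h.2.2.imp (fun a b hab => φ.map_adj_iff.2 hab)

theorem lies_iso (φ : G ≃g H) {P : List V} (h : LiesOnHam G P) : LiesOnHam H (P.map φ) := by
  obtain ⟨M, hM⟩ := h
  exact ⟨M.map φ, by rw [← List.map_append]; exact ham_iso φ hM⟩

end basics

/-- No triangles and no 4-cycles, every vertex has exactly three neighbours, and every path of
order at most 5 lies on a Hamiltonian cycle. -/
structure Good {V : Type*} (G : SimpleGraph V) : Prop where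
  deg : ∀ v, ∃ a b c, a ≠ b ∧ a ≠ c ∧ b ≠ c ∧ ∀ w, G.Adj v w ↔ w = a ∨ w = b ∨ w = c
  noTri : ∀ x y z, G.Adj x y → G.Adj y z → ¬ G.Adj z x
  noC4 : ∀ x y z w, G.Adj x y → G.Adj y z → G.Adj z w → G.Adj w x → x = z ∨ y = w
  ext : ∀ P, IsPathList G P → P.length ≤ 5 → LiesOnHam G P

/-- A bijection (given as a relation) between the neighbours of `g` and the neighbours of `h`. -/
structure IsMatch {V W : Type*} (G : SimpleGraph V) (g : V) (H : SimpleGraph W) (h : W)
    (R : V → W → Prop) : Prop where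
  left : ∀ x y, R x y → G.Adj g x
  right : ∀ x y, R x y → H.Adj h y
  exL : ∀ x, G.Adj g x → ∃ y, R x y
  exR : ∀ y, H.Adj h y → ∃ x, R x y
  uL : ∀ x y y', R x y → R x y' → y = y'
  uR : ∀ x x' y, R x y → R x' y → x = x'

theorem IsMatch.symm {V W : Type*} {G : SimpleGraph V} {g : V} {H : SimpleGraph W} {h : W}
    {R : V → W → Prop} (hR : IsMatch G g H h R) : IsMatch H h G g (fun y x => R x y) :=
  ⟨fun y x r => hR.right x y r, fun y x r => hR.left x y r, fun y hy => hR.exR y hy,
    fun x hx => hR.exL x hx, fun y x x' r r' => hR.uR x x' y r r',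
    fun y y' x r r' => hR.uL x y y' r r'⟩

/-- The star product: delete `g` from `G` and `h` from `H`, and join the three neighbours of `g`
to the three neighbours of `h` by the matching `R`. -/
def star {V W : Type*} (G : SimpleGraph V) (g : V) (H : SimpleGraph W) (h : W)
    (R : V → W → Prop) : SimpleGraph ({x : V // x ≠ g} ⊕ {y : W // y ≠ h}) where
  Adj u v := match u, v with
    | .inl x, .inl y => G.Adj x y
    | .inr x, .inr y => H.Adj x y
    | .inl x, .inr y => R x y
    | .inr y, .inl x => R x y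
  symm := ⟨by
    rintro (u | u) (v | v) h
    · exact SimpleGraph.Adj.symm (G := G) h
    · exact h
    · exact h
    · exact SimpleGraph.Adj.symm (G := H) h⟩
  loopless := ⟨by
    rintro (u | u) h
    · exact G.irrefl h
    · exact H.irrefl h⟩

section starlemmas

variable {V W : Type*} {G : SimpleGraph V} {g : V} {H : SimpleGraph W} {h : W}
  {R : V → W → Prop}

@[simp] theorem star_ll (x y : {x : V // x ≠ g}) :
    (star G g H h R).Adj (.inl x) (.inl y) ↔ G.Adj x y := Iff.rfl
@[simp] theorem star_rr (x y : {y : W // y ≠ h}) :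
    (star G g H h R).Adj (.inr x) (.inr y) ↔ H.Adj x y := Iff.rfl
@[simp] theorem star_lr (x : {x : V // x ≠ g}) (y : {y : W // y ≠ h}) :
    (star G g H h R).Adj (.inl x) (.inr y) ↔ R x y := Iff.rfl
@[simp] theorem star_rl (x : {x : V // x ≠ g}) (y : {y : W // y ≠ h}) :
    (star G g H h R).Adj (.inr y) (.inl x) ↔ R x y := Iff.rfl

/-- The star product is symmetric in its two factors. -/
def starSwap (G : SimpleGraph V) (g : V) (H : SimpleGraph W) (h : W) (R : V → W → Prop) :
    star H h G g (fun y x => R x y) ≃g star G g H h R where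
  toEquiv := Equiv.sumComm _ _
  map_rel_iff' := by
    rintro (a | a) (b | b) <;> simp

/-- Combining a Hamiltonian cycle through `g` and one through `h`. -/
theorem comb {A : List {x : V // x ≠ g}} {Q : List {y : W // y ≠ h}}
    (hG : HamCyc G (g :: A.map Subtype.val)) (hH : HamCyc H (h :: Q.map Subtype.val))
    (h1 : ∀ a ∈ A.getLast?, ∀ y ∈ Q.head?, R a y) (h2 : ∀ y ∈ Q.getLast?, ∀ a ∈ A.head?, R a y) :
    HamCyc (star G g H h R) (A.map Sum.inl ++ Q.map Sum.inr) := by
  have lA : 2 ≤ A.length := by have := hG.len; simp at this; omega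
  have lQ : 2 ≤ Q.length := by have := hH.len; simp at this; omega
  have hA : A ≠ [] := by rintro rfl; simp at lA
  have hQ : Q ≠ [] := by rintro rfl; simp at lQ
  refine ⟨by simp; omega, ?_, ?_, ?_, ?_⟩
  · rw [List.nodup_append]
    refine ⟨?_, ?_, ?_⟩
    · have := (List.nodup_cons.1 hG.nodup).2
      exact (List.Nodup.of_map _ this).map Sum.inl_injective
    · have := (List.nodup_cons.1 hH.nodup).2
      exact (List.Nodup.of_map _ this).map Sum.inr_injective
    · intro a ha b hb
      simp only [List.mem_map] at ha hb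
      obtain ⟨a', _, rfl⟩ := ha
      obtain ⟨b', _, rfl⟩ := hb
      simp
  · rintro (v | v)
    · have := hG.all v.1
      rw [List.mem_cons] at this
      rcases this with e | e
      · exact absurd e v.2
      · rw [List.mem_map] at e
        obtain ⟨w, hw, he⟩ := e
        have : w = v := Subtype.ext he
        subst this
        simp [hw]
    · have := hH.all v.1
      rw [List.mem_cons] at this
      rcases this with e | e
      · exact absurd e v.2
      · rw [List.mem_map] at e
        obtain ⟨w, hw, he⟩ := e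
        have : w = v := Subtype.ext he
        subst this
        simp [hw]
  · rw [isChain_append]
    refine ⟨?_, ?_, ?_⟩
    · have := (isChain_cons.1 hG.chain).2
      rw [isChain_map] at this ⊢
      exact this
    · have := (isChain_cons.1 hH.chain).2
      rw [isChain_map] at this ⊢
      exact this
    · intro x hx y hy
      rw [List.getLast?_map] at hx
      rw [List.head?_map] at hy
      simp only [Option.mem_def, Option.map_eq_some_iff] at hx hy
      obtain ⟨x', hx', rfl⟩ := hx
      obtain ⟨y', hy', rfl⟩ := hy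
      exact h1 x' hx' y' hy'
  · intro x hx y hy
    rw [List.getLast?_append_of_ne_nil _ (by simpa using hQ), List.getLast?_map] at hx
    rw [List.head?_append_of_ne_nil _ (by simpa using hA), List.head?_map] at hy
    simp only [Option.mem_def, Option.map_eq_some_iff] at hx hy
    obtain ⟨x', hx', rfl⟩ := hx
    obtain ⟨y', hy', rfl⟩ := hy
    exact h2 x' hx' y' hy'

/-- A list avoiding `g` comes from a list over the subtype. -/
theorem exists_lift {g : V} (L : List V) (hL : g ∉ L) :
    ∃ L' : List {x : V // x ≠ g}, L'.map Subtype.val = L := by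
  induction L with
  | nil => exact ⟨[], rfl⟩
  | cons a L ih =>
    rw [List.mem_cons, not_or] at hL
    obtain ⟨L', hL'⟩ := ih hL.2
    exact ⟨⟨a, fun e => hL.1 e.symm⟩ :: L', by simp [hL']⟩

end starlemmas

section core

variable {V W : Type*} {G : SimpleGraph V} {g : V} {H : SimpleGraph W} {h : W}
  {R : V → W → Prop}

theorem sub (gH : Good H) (hR : IsMatch G g H h R) {B M2 : List {x : V // x ≠ g}} (hB : B ≠ [])
    (hG : HamCyc G (B.map Subtype.val ++ g :: M2.map Subtype.val)) {y : {y : W // y ≠ h}}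
    (hy : R (B.getLast hB) y) (T : List {y : W // y ≠ h})
    (hT : T = [] ∨ ∃ z : {y : W // y ≠ h}, T = [z] ∧ H.Adj y z) :
    ∃ Q : List {y : W // y ≠ h}, HamCyc (star G g H h R)
      (B.map Sum.inl ++ ((y :: T).map Sum.inr ++ (Q.map Sum.inr ++ M2.map Sum.inl))) := by
  -- the rotated cycle of `G`
  have hA : HamCyc G (g :: (M2 ++ B).map Subtype.val) := by
    have := ham_rot hG
    simpa using this
  have hAne : M2 ++ B ≠ [] := by simp [hB]
  have hlast : (M2 ++ B).getLast? = some (B.getLast hB) := by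
    rw [List.getLast?_append_of_ne_nil _ hB, List.getLast?_eq_getLast_of_ne_nil hB]
  -- the head
  obtain ⟨a', A', hA'⟩ := List.exists_cons_of_ne_nil hAne
  have hadj' : G.Adj g a' := by
    have := hA.chain
    rw [hA'] at this
    simp only [List.map_cons, isChain_cons_cons] at this
    exact this.1
  have hne : (B.getLast hB) ≠ a' := by
    intro e
    have hlen := hA.len
    rw [hA'] at hlast hlen
    have hnd := hA.nodup
    rw [hA'] at hnd
    have hnd2 : (a' :: A').Nodup := List.Nodup.of_map _ (List.nodup_cons.1 hnd).2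
    have hA'ne : A' ≠ [] := by rintro rfl; simp at hlen
    rw [List.getLast?_cons_of_ne_nil hA'ne] at hlast
    have hmem : B.getLast hB ∈ A' := List.mem_of_getLast? hlast
    rw [e] at hmem
    exact (List.nodup_cons.1 hnd2).1 hmem
  obtain ⟨y', hy'⟩ := hR.exL _ hadj'
  have hyy : (y : W) ≠ y' := by
    intro e
    rw [e] at hy
    exact hne (Subtype.ext (hR.uR _ _ _ hy hy'))
  have hhy : H.Adj h y := hR.right _ _ hy
  have hhy' : H.Adj h y' := hR.right _ _ hy'
  have hy'h : y' ≠ h := fun e => H.irrefl (e ▸ hhy')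
  -- the path in `H`
  have hpath : IsPathList H (y' :: h :: ((y :: T).map Subtype.val)) := by
    rcases hT with rfl | ⟨z, rfl, hz⟩
    · refine ⟨by simp, ?_, ?_⟩
      · simp only [List.map_cons, List.map_nil, List.nodup_cons, List.mem_cons, List.not_mem_nil,
          or_false, not_or, not_false_eq_true, List.nodup_nil, and_true]
        exact ⟨⟨hy'h, fun e => hyy e.symm⟩, fun e => y.2 e.symm⟩
      · simp only [List.map_cons, List.map_nil, isChain_cons_cons, List.isChain_singleton,
          and_true]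
        exact ⟨hhy'.symm, hhy⟩
    · refine ⟨by simp, ?_, ?_⟩
      · simp only [List.map_cons, List.map_nil, List.nodup_cons, List.mem_cons, List.not_mem_nil,
          or_false, not_or, not_false_eq_true, List.nodup_nil, and_true]
        refine ⟨⟨hy'h, fun e => hyy e.symm, fun e => ?_⟩, ⟨fun e => y.2 e.symm, fun e => z.2 e.symm⟩,
          fun e => ?_⟩
        · rw [e] at hhy'
          exact gH.noTri _ _ _ hhy hz hhy'.symm
        · rw [e] at hz
          exact H.irrefl hz
      · simp only [List.map_cons, List.map_nil, isChain_cons_cons, List.isChain_singleton,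
          and_true]
        exact ⟨hhy'.symm, hhy, hz⟩
  have hlen : (y' :: h :: ((y :: T).map Subtype.val)).length ≤ 5 := by
    rcases hT with rfl | ⟨z, rfl, hz⟩ <;> simp
  obtain ⟨N, hN⟩ := gH.ext _ hpath hlen
  have hH : HamCyc H (h :: ((y :: T).map Subtype.val ++ (N ++ [y']))) := by
    have h1 : y' :: h :: ((y :: T).map Subtype.val) ++ N =
      [y'] ++ (h :: ((y :: T).map Subtype.val ++ N)) := by simp
    rw [h1] at hN
    have := ham_rot hN
    simpa using this
  have hNh : h ∉ N ++ [y'] := by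
    have := (List.nodup_cons.1 hH.nodup).1
    intro e
    exact this (List.mem_append_right _ e)
  obtain ⟨Q, hQ⟩ := exists_lift (N ++ [y']) hNh
  refine ⟨Q, ?_⟩
  have hQne : Q ≠ [] := by
    rintro rfl
    simp at hQ
  have hQlast : Q.getLast? = some ⟨y', hy'h⟩ := by
    have : (Q.map Subtype.val).getLast? = some y' := by rw [hQ]; simp
    rw [List.getLast?_map, Option.map_eq_some_iff] at this
    obtain ⟨q, hq, hqe⟩ := this
    rw [hq]
    exact congrArg some (Subtype.ext hqe)
  have hH2 : HamCyc H (h :: ((y :: T) ++ Q).map Subtype.val) := by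
    rw [List.map_append, hQ]; exact hH
  have key := comb (R := R) hA hH2 (by
    intro a ha b hb
    rw [Option.mem_def, hlast] at ha
    simp only [Option.some.injEq] at ha
    simp only [List.cons_append, List.head?_cons, Option.mem_def, Option.some.injEq] at hb
    subst ha; subst hb
    exact hy) (by
    intro b hb a ha
    rw [List.getLast?_append_of_ne_nil _ hQne, hQlast] at hb
    rw [hA'] at ha
    simp only [Option.mem_def, Option.some.injEq, List.head?_cons] at ha hb
    subst ha; subst hb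
    exact hy')
  have e1 : (M2 ++ B).map Sum.inl ++ ((y :: T) ++ Q).map Sum.inr =
    (M2.map Sum.inl) ++ (B.map Sum.inl ++ ((y :: T).map Sum.inr ++ Q.map Sum.inr) :
      List ({x : V // x ≠ g} ⊕ {y : W // y ≠ h})) := by
    simp
  rw [e1] at key
  have := ham_rot key
  simpa using this

theorem core (gG : Good G) (gH : Good H) (hR : IsMatch G g H h R) (P1 : List {x : V // x ≠ g})
    (P2 : List {y : W // y ≠ h}) (h1 : P1 ≠ []) (h12 : P2.length ≤ P1.length)
    (h5 : P1.length + P2.length ≤ 5)
    (hP : IsPathList (star G g H h R) (P1.map Sum.inl ++ P2.map Sum.inr)) :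
    LiesOnHam (star G g H h R) (P1.map Sum.inl ++ P2.map Sum.inr) := by
  obtain ⟨-, hnd, hch⟩ := hP
  rw [isChain_append] at hch
  obtain ⟨hch1, hch2, hj⟩ := hch
  have hnd1 : P1.Nodup := List.Nodup.of_map _ (List.nodup_append.1 hnd).1
  have hndv : (P1.map Subtype.val).Nodup := hnd1.map Subtype.val_injective
  have hchv : (P1.map Subtype.val).IsChain G.Adj := by
    rw [isChain_map] at hch1 ⊢
    exact hch1
  have hgP : g ∉ P1.map Subtype.val := by
    rw [List.mem_map]
    rintro ⟨x, -, e⟩
    exact x.2 e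
  rcases P2 with _ | ⟨y, T⟩
  · -- the path stays on one side
    obtain ⟨M, hM⟩ := gG.ext (P1.map Subtype.val) ⟨fun e => h1 (List.map_eq_nil_iff.1 e), hndv, hchv⟩ (by simpa using h5)
    have hgM : g ∈ M := by
      have := hM.all g
      rw [List.mem_append] at this
      rcases this with e | e
      · exact absurd e hgP
      · exact e
    obtain ⟨M1, M2, rfl⟩ := List.append_of_mem hgM
    have hnd' := hM.nodup
    rw [← List.append_assoc, List.nodup_middle] at hnd'
    have hg12 := (List.nodup_cons.1 hnd').1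
    simp only [List.mem_append, not_or] at hg12
    obtain ⟨M1', rfl⟩ := exists_lift M1 hg12.1.2
    obtain ⟨M2', rfl⟩ := exists_lift M2 hg12.2
    have hB : P1 ++ M1' ≠ [] := by simp [h1]
    have hG : HamCyc G ((P1 ++ M1').map Subtype.val ++ g :: M2'.map Subtype.val) := by
      simpa using hM
    have hadj : G.Adj ((P1 ++ M1').getLast hB) g := by
      have := hG.chain
      rw [isChain_append] at this
      refine this.2.2 _ ?_ _ (by simp)
      rw [List.getLast?_map, List.getLast?_eq_getLast_of_ne_nil hB]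
      rfl
    obtain ⟨y, hy⟩ := hR.exL _ hadj.symm
    have hyh : y ≠ h := fun e => H.irrefl (e ▸ hR.right _ _ hy)
    obtain ⟨Q, hQ⟩ := sub gH hR hB hG (y := ⟨y, hyh⟩) hy [] (Or.inl rfl)
    refine ⟨M1'.map Sum.inl ++ ([⟨y, hyh⟩].map Sum.inr ++ (Q.map Sum.inr ++ M2'.map Sum.inl)), ?_⟩
    simpa using hQ
  · -- the path crosses
    have hl : P1.length ≤ 4 := by simp at h5; omega
    have hjy : ∀ x ∈ P1.getLast?, R x y := by
      intro x hx
      refine hj (Sum.inl x) ?_ (Sum.inr y) (by simp)
      rw [List.getLast?_map]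
      rw [Option.mem_def] at hx
      rw [hx]; rfl
    have hy : R (P1.getLast h1) y := hjy _ (by rw [List.getLast?_eq_getLast_of_ne_nil h1]; rfl)
    obtain ⟨M2, hM⟩ := gG.ext (P1.map Subtype.val ++ [g]) (by
      refine ⟨by simp, ?_, ?_⟩
      · rw [List.nodup_append]
        refine ⟨hndv, by simp, ?_⟩
        intro a ha b hb e
        simp only [List.mem_singleton] at hb
        rw [e, hb] at ha
        exact hgP ha
      · rw [isChain_append]
        refine ⟨hchv, by simp, ?_⟩
        intro a ha b hb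
        simp only [List.head?_cons, Option.mem_def, Option.some.injEq] at hb
        subst hb
        rw [List.getLast?_map, Option.mem_def, Option.map_eq_some_iff] at ha
        obtain ⟨a', ha', rfl⟩ := ha
        exact (hR.left _ _ (hjy a' ha')).symm) (by simp; omega)
    have hnd' := hM.nodup
    have hg2 : g ∉ M2 := by
      intro e
      rw [List.append_assoc, List.nodup_append] at hnd'
      have := (List.nodup_cons.1 hnd'.2.1).1
      exact this (by simpa using e)
    obtain ⟨M2', rfl⟩ := exists_lift M2 hg2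
    have hG : HamCyc G (P1.map Subtype.val ++ g :: M2'.map Subtype.val) := by
      simpa using hM
    have hT : T = [] ∨ ∃ z : {y : W // y ≠ h}, T = [z] ∧ H.Adj y z := by
      rcases T with _ | ⟨z, T⟩
      · exact Or.inl rfl
      · right
        rcases T with _ | ⟨w, T⟩
        · refine ⟨z, rfl, ?_⟩
          rw [isChain_map] at hch2
          simp only [isChain_cons_cons] at hch2
          exact hch2.1
        · exfalso
          simp at h12 h5
          omega
    obtain ⟨Q, hQ⟩ := sub gH hR h1 hG hy T hT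
    exact ⟨Q.map Sum.inr ++ M2'.map Sum.inl, by simpa using hQ⟩

end core

section starGood

variable {V W : Type*} {G : SimpleGraph V} {g : V} {H : SimpleGraph W} {h : W}
  {R : V → W → Prop}

/-- A short path of `G - g` between two neighbours of `g` is a single vertex. -/
theorem short_return (gG : Good G) (P : List {x : V // x ≠ g}) (hlen : P.length ≤ 3)
    (hnd : P.Nodup) (hch : (P.map Subtype.val).IsChain G.Adj)
    {a b : {x : V // x ≠ g}} (ha : a ∈ P.head?) (hb : b ∈ P.getLast?) (hga : G.Adj g a)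
    (hgb : G.Adj g b) : a = b := by
  rcases P with _ | ⟨x, P⟩
  · simp at ha
  rcases P with _ | ⟨y, P⟩
  · simp at ha hb; rw [← ha, ← hb]
  rcases P with _ | ⟨z, P⟩
  · exfalso
    simp at ha hb
    subst ha; subst hb
    simp only [List.map_cons, List.map_nil, isChain_cons_cons, List.isChain_singleton,
      and_true] at hch
    exact gG.noTri _ _ _ hga hch hgb.symm
  rcases P with _ | ⟨w, P⟩
  · exfalso
    simp at ha hb
    subst ha; subst hb
    simp only [List.map_cons, List.map_nil, isChain_cons_cons, List.isChain_singleton,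
      and_true] at hch
    rcases gG.noC4 g x y z hga hch.1 hch.2 hgb.symm with e | e
    · exact y.2 e.symm
    · have : x = z := Subtype.ext e
      subst this
      simp at hnd
  · simp at hlen; omega

/-- A path of order at most 5 in the star product crosses the cut at most once. -/
theorem decomp (gG : Good G) (gH : Good H) (hR : IsMatch G g H h R)
    (P : List ({x : V // x ≠ g} ⊕ {y : W // y ≠ h})) (hlen : P.length ≤ 5) (hnd : P.Nodup)
    (hch : P.IsChain (star G g H h R).Adj) :
    ∃ (P1 : List {x : V // x ≠ g}) (P2 : List {y : W // y ≠ h}),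
      P = P1.map Sum.inl ++ P2.map Sum.inr ∨ P = P2.map Sum.inr ++ P1.map Sum.inl := by
  induction P with
  | nil => exact ⟨[], [], Or.inl rfl⟩
  | cons x P ih =>
    have hlen' : P.length ≤ 4 := by simp at hlen; omega
    obtain ⟨P1, P2, hP⟩ := ih (by omega) (List.nodup_cons.1 hnd).2 (isChain_cons.1 hch).2
    have hx := (isChain_cons.1 hch).1
    have hxP := (List.nodup_cons.1 hnd).1
    have hchP := (isChain_cons.1 hch).2
    have hndP := (List.nodup_cons.1 hnd).2
    rcases x with x | x
    · rcases hP with hP | hP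
      · exact ⟨x :: P1, P2, Or.inl (by simp [hP])⟩
      · -- x, P2, P1
        rcases P2 with _ | ⟨y, P2⟩
        · exact ⟨x :: P1, [], Or.inl (by simp [hP])⟩
        rcases P1 with _ | ⟨z, P1⟩
        · exact ⟨[x], y :: P2, Or.inl (by simp [hP])⟩
        exfalso
        have hRxy : R x y := hx (Sum.inr y) (by rw [hP]; simp)
        rw [hP, isChain_append] at hchP
        obtain ⟨c1, c2, c3⟩ := hchP
        have hne : (y :: P2) ≠ [] := by simp
        have hRzl : R z ((y :: P2).getLast hne) := by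
          refine c3 (Sum.inr ((y :: P2).getLast hne)) ?_ (Sum.inl z) (by simp)
          rw [List.getLast?_map, List.getLast?_eq_getLast_of_ne_nil hne]; rfl
        have hl3 : (y :: P2).length ≤ 3 := by
          rw [hP] at hlen'; simp at hlen' ⊢; omega
        have e := short_return gH (y :: P2) hl3
          (by
            rw [hP] at hndP
            exact List.Nodup.of_map _ (List.nodup_append.1 hndP).1)
          (by rw [isChain_map] at c1 ⊢; exact c1)
          (a := y) (b := (y :: P2).getLast hne) (by simp)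
          (by rw [List.getLast?_eq_getLast_of_ne_nil hne]; rfl) (hR.right _ _ hRxy)
          (hR.right _ _ hRzl)
        rw [← e] at hRzl
        have : x = z := Subtype.ext (hR.uR _ _ _ hRxy hRzl)
        apply hxP
        rw [hP, this]
        simp
    · rcases hP with hP | hP
      · -- x, P1, P2
        rcases P1 with _ | ⟨y, P1⟩
        · exact ⟨[], x :: P2, Or.inl (by simp [hP])⟩
        rcases P2 with _ | ⟨z, P2⟩
        · exact ⟨y :: P1, [x], Or.inr (by simp [hP])⟩
        exfalso
        have hRxy : R y x := hx (Sum.inl y) (by rw [hP]; simp)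
        rw [hP, isChain_append] at hchP
        obtain ⟨c1, c2, c3⟩ := hchP
        have hne : (y :: P1) ≠ [] := by simp
        have hRzl : R ((y :: P1).getLast hne) z := by
          refine c3 (Sum.inl ((y :: P1).getLast hne)) ?_ (Sum.inr z) (by simp)
          rw [List.getLast?_map, List.getLast?_eq_getLast_of_ne_nil hne]; rfl
        have hl3 : (y :: P1).length ≤ 3 := by
          rw [hP] at hlen'; simp at hlen' ⊢; omega
        have e := short_return gG (y :: P1) hl3
          (by
            rw [hP] at hndP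
            exact List.Nodup.of_map _ (List.nodup_append.1 hndP).1)
          (by rw [isChain_map] at c1 ⊢; exact c1)
          (a := y) (b := (y :: P1).getLast hne) (by simp)
          (by rw [List.getLast?_eq_getLast_of_ne_nil hne]; rfl) (hR.left _ _ hRxy)
          (hR.left _ _ hRzl)
        rw [← e] at hRzl
        have : x = z := Subtype.ext (hR.uL _ _ _ hRxy hRzl)
        apply hxP
        rw [hP, this]
        simp
      · exact ⟨P1, x :: P2, Or.inr (by simp [hP])⟩

/-- Paths of order at most 5 in the star product lie on Hamiltonian cycles: first shape. -/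
theorem lies_lr (gG : Good G) (gH : Good H) (hR : IsMatch G g H h R) (P1 : List {x : V // x ≠ g})
    (P2 : List {y : W // y ≠ h}) (h5 : P1.length + P2.length ≤ 5)
    (hP : IsPathList (star G g H h R) (P1.map Sum.inl ++ P2.map Sum.inr)) :
    LiesOnHam (star G g H h R) (P1.map Sum.inl ++ P2.map Sum.inr) := by
  by_cases hle : P2.length ≤ P1.length
  · have h1 : P1 ≠ [] := by
      rintro rfl
      have : P2 = [] := by simpa using hle
      subst this
      exact hP.1 rfl
    exact core gG gH hR P1 P2 h1 hle h5 hP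
  · have h2 : P2 ≠ [] := by rintro rfl; simp at hle
    -- reverse and swap
    have hP' := path_iso (starSwap G g H h R).symm (path_reverse hP)
    have e : (P1.map Sum.inl ++ P2.map Sum.inr :
        List ({x : V // x ≠ g} ⊕ {y : W // y ≠ h})).reverse.map (starSwap G g H h R).symm =
        P2.reverse.map Sum.inl ++ P1.reverse.map Sum.inr := by
      rw [List.reverse_append, List.map_append, ← List.map_reverse, ← List.map_reverse,
        List.map_map, List.map_map]
      rfl
    rw [e] at hP'
    have := core gH gG hR.symm P2.reverse P1.reverse (by simpa using h2) (by simp; omega)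
      (by simp; omega) hP'
    rw [← e] at this
    have h3 := lies_iso (starSwap G g H h R) this
    rw [List.map_map] at h3
    have e2 : ((starSwap G g H h R) ∘ (starSwap G g H h R).symm : _ → _) = id := by
      funext x; simp
    rw [e2, List.map_id] at h3
    exact lies_reverse_iff.1 h3

theorem star_ext (gG : Good G) (gH : Good H) (hR : IsMatch G g H h R)
    (P : List ({x : V // x ≠ g} ⊕ {y : W // y ≠ h})) (hP : IsPathList (star G g H h R) P)
    (hlen : P.length ≤ 5) : LiesOnHam (star G g H h R) P := by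
  obtain ⟨P1, P2, e | e⟩ := decomp gG gH hR P hlen hP.2.1 hP.2.2
  · subst e
    exact lies_lr gG gH hR P1 P2 (by simpa using hlen) hP
  · have e2 : P.reverse = P1.reverse.map Sum.inl ++ P2.reverse.map Sum.inr := by
      rw [e, List.reverse_append, List.map_reverse, List.map_reverse]
    apply lies_reverse_iff.1
    have hP' := path_reverse hP
    rw [e2] at hP' ⊢
    have hlen2 := hlen
    rw [e] at hlen2
    exact lies_lr gG gH hR _ _ (by simp at hlen2 ⊢; omega) hP'

theorem three_split {x g : V} (gG : Good G) (hx : G.Adj x g) :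
    ∃ b c, g ≠ b ∧ g ≠ c ∧ b ≠ c ∧ ∀ w, G.Adj x w ↔ w = g ∨ w = b ∨ w = c := by
  obtain ⟨a, b, c, hab, hac, hbc, hw⟩ := gG.deg x
  rcases (hw g).1 hx with rfl | rfl | rfl
  · exact ⟨b, c, hab, hac, hbc, hw⟩
  · exact ⟨a, c, hab.symm, hbc, hac, fun w => by rw [hw]; tauto⟩
  · exact ⟨a, b, hac.symm, hbc.symm, hab, fun w => by rw [hw]; tauto⟩

theorem star_deg_left (gG : Good G) (hR : IsMatch G g H h R) (x : {x : V // x ≠ g}) :
    ∃ a b c, a ≠ b ∧ a ≠ c ∧ b ≠ c ∧
      ∀ w, (star G g H h R).Adj (Sum.inl x) w ↔ w = a ∨ w = b ∨ w = c := by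
  by_cases hx : G.Adj x g
  · obtain ⟨b, c, hb, hc, hbc, hw⟩ := three_split gG hx
    obtain ⟨y, hy⟩ := hR.exL _ hx.symm
    have hyh : y ≠ h := fun e => H.irrefl (e ▸ hR.right _ _ hy)
    refine ⟨Sum.inr ⟨y, hyh⟩, Sum.inl ⟨b, hb.symm⟩, Sum.inl ⟨c, hc.symm⟩, by simp, by simp,
      by simpa using hbc, ?_⟩
    rintro (w | w)
    · rw [star_ll, hw]
      have := w.2
      simp only [this, false_or, reduceCtorEq, Sum.inl.injEq, Subtype.ext_iff]
    · rw [star_lr]
      simp only [Sum.inr.injEq, Subtype.ext_iff, reduceCtorEq, or_false]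
      exact ⟨fun r => hR.uL _ _ _ r hy, fun e => by rw [e]; exact hy⟩
  · obtain ⟨a, b, c, hab, hac, hbc, hw⟩ := gG.deg x
    have ha : a ≠ g := fun e => hx ((hw g).2 (Or.inl e.symm))
    have hb : b ≠ g := fun e => hx ((hw g).2 (Or.inr (Or.inl e.symm)))
    have hc : c ≠ g := fun e => hx ((hw g).2 (Or.inr (Or.inr e.symm)))
    refine ⟨Sum.inl ⟨a, ha⟩, Sum.inl ⟨b, hb⟩, Sum.inl ⟨c, hc⟩, by simpa using hab,
      by simpa using hac, by simpa using hbc, ?_⟩
    rintro (w | w)
    · rw [star_ll, hw]
      simp only [Sum.inl.injEq, Subtype.ext_iff]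
    · rw [star_lr]
      simp only [reduceCtorEq, or_false, iff_false]
      exact fun r => hx (hR.left _ _ r).symm

theorem star_good (gG : Good G) (gH : Good H) (hR : IsMatch G g H h R) :
    Good (star G g H h R) where
  deg := by
    rintro (x | x)
    · exact star_deg_left gG hR x
    · obtain ⟨a, b, c, hab, hac, hbc, hw⟩ := star_deg_left gH hR.symm x
      refine ⟨starSwap G g H h R a, starSwap G g H h R b, starSwap G g H h R c,
        fun e => hab ((starSwap G g H h R).injective e),
        fun e => hac ((starSwap G g H h R).injective e),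
        fun e => hbc ((starSwap G g H h R).injective e), fun w => ?_⟩
      have h1 : (star G g H h R).Adj (Sum.inr x) w ↔
          (star H h G g (fun y x => R x y)).Adj (Sum.inl x) ((starSwap G g H h R).symm w) := by
        rw [← (starSwap G g H h R).map_adj_iff]
        simp [starSwap]
      rw [h1, hw]
      simp only [RelIso.symm_apply_eq]
  noTri := by
    rintro (x | x) (y | y) (z | z) <;> simp only [star_ll, star_rr, star_lr, star_rl] <;>
      intro h1 h2 h3
    · exact gG.noTri _ _ _ h1 h2 h3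
    · have := hR.uR _ _ _ h2 h3; rw [this] at h1; exact G.irrefl h1
    · have := hR.uR _ _ _ h1 h2; rw [this] at h3; exact G.irrefl h3
    · have := hR.uL _ _ _ h1 h3; rw [this] at h2; exact H.irrefl h2
    · have := hR.uR _ _ _ h1 h3; rw [this] at h2; exact G.irrefl h2
    · have := hR.uL _ _ _ h1 h2; rw [this] at h3; exact H.irrefl h3
    · have := hR.uL _ _ _ h2 h3; rw [this] at h1; exact H.irrefl h1
    · exact gH.noTri _ _ _ h1 h2 h3
  noC4 := by
    have tG : ∀ x y : {x : V // x ≠ g}, G.Adj x y → ∀ z w, R x z → R y w → False := by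
      intro x y hxy z w r1 r2
      exact gG.noTri g x y (hR.left _ _ r1) hxy (hR.left _ _ r2).symm
    rintro (x | x) (y | y) (z | z) (w | w) <;>
      simp only [star_ll, star_rr, star_lr, star_rl, reduceCtorEq, Sum.inl.injEq, Sum.inr.injEq,
        false_or, or_false, Subtype.ext_iff] <;>
      intro h1 h2 h3 h4
    · exact gG.noC4 _ _ _ _ h1 h2 h3 h4
    · exact hR.uR _ _ _ h4 h3
    · exact hR.uR _ _ _ h2 h3
    · exact tG _ _ h1 _ _ h4 h2
    · exact hR.uR _ _ _ h1 h2
    · exact Or.inl (hR.uR _ _ _ h1 h2)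
    · exact tG _ _ h4 _ _ h3 h1
    · exact hR.uL _ _ _ h1 h4
    · exact hR.uR _ _ _ h1 h4
    · exact tG _ _ h2 _ _ h1 h3
    · exact Or.inr (hR.uR _ _ _ h1 h4)
    · exact hR.uL _ _ _ h1 h2
    · exact tG _ _ h3 _ _ h2 h4
    · exact hR.uL _ _ _ h2 h3
    · exact hR.uL _ _ _ h4 h3
    · exact gH.noC4 _ _ _ _ h1 h2 h3 h4
  ext := fun P hP hlen => star_ext gG gH hR P hP hlen

end starGood

section upper

variable {V W : Type*} {G : SimpleGraph V} {g : V} {H : SimpleGraph W} {h : W}
  {R : V → W → Prop}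

/-- Splitting a list at its first element satisfying `p`. -/
theorem split_first {α : Type*} (p : α → Prop) (L : List α) (hL : ∃ a ∈ L, p a) :
    ∃ L1 a L2, L = L1 ++ a :: L2 ∧ p a ∧ ∀ b ∈ L1, ¬ p b := by
  induction L with
  | nil => simp at hL
  | cons x L ih =>
    by_cases hx : p x
    · exact ⟨[], x, L, rfl, hx, by simp⟩
    · obtain ⟨L1, a, L2, e, ha, hb⟩ := ih (by
        obtain ⟨a, ha, hp⟩ := hL
        rcases List.mem_cons.1 ha with rfl | ha
        · exact absurd hp hx
        · exact ⟨a, ha, hp⟩)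
      refine ⟨x :: L1, a, L2, by rw [e]; rfl, ha, ?_⟩
      intro b hb'
      rcases List.mem_cons.1 hb' with rfl | hb'
      · exact hx
      · exact hb b hb'

theorem split_last {α : Type*} (p : α → Prop) (L : List α) (hL : ∃ a ∈ L, p a) :
    ∃ L1 a L2, L = L1 ++ a :: L2 ∧ p a ∧ ∀ b ∈ L2, ¬ p b := by
  obtain ⟨L1, a, L2, e, ha, hb⟩ := split_first p L.reverse (by simpa using hL)
  refine ⟨L2.reverse, a, L1.reverse, ?_, ha, by simpa using hb⟩
  have := congrArg List.reverse e
  simpa using this

/-- The path of order 6 that goes around a pentagon through `h` does not lie on a Hamiltonian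
cycle of the star product. -/
theorem not_lies (gH : Good H) (hR : IsMatch G g H h R)
    (x x' : {x : V // x ≠ g}) (y1 y2 y3 y4 y5 : {y : W // y ≠ h})
    (r1 : R x y1) (r4 : R x' y4) (h14 : y1 ≠ y4)
    (hy5 : y5 ≠ y1 ∧ y5 ≠ y2 ∧ y5 ≠ y3 ∧ y5 ≠ y4) :
    ¬ LiesOnHam (star G g H h R)
      [Sum.inl x, Sum.inr y1, Sum.inr y2, Sum.inr y3, Sum.inr y4, Sum.inl x'] := by
  rintro ⟨M, hM⟩
  obtain ⟨hlen, hnd, hall, hch, hcl⟩ := hM
  -- third neighbour argument
  have third : ∀ (y z : {y : W // y ≠ h}), H.Adj h y → H.Adj h z → y ≠ y1 → y ≠ y4 → z ≠ y1 →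
      z ≠ y4 → y = z := by
    intro y z hy hz n1 n2 n3 n4
    obtain ⟨a, b, c, hab, hac, hbc, hw⟩ := gH.deg h
    have e1 := (hw y1).1 (hR.right _ _ r1)
    have e4 := (hw y4).1 (hR.right _ _ r4)
    have ey := (hw y).1 hy
    have ez := (hw z).1 hz
    have n5 : (y1 : W) ≠ y4 := fun e => h14 (Subtype.ext e)
    have n1' : (y : W) ≠ y1 := fun e => n1 (Subtype.ext e)
    have n2' : (y : W) ≠ y4 := fun e => n2 (Subtype.ext e)
    have n3' : (z : W) ≠ y1 := fun e => n3 (Subtype.ext e)
    have n4' : (z : W) ≠ y4 := fun e => n4 (Subtype.ext e)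
    apply Subtype.ext
    clear hnd hall hch hcl hlen hab hac hbc hw hR gH hy hz h14 hy5 n1 n2 n3 n4
    grind
  have hy5M : Sum.inr y5 ∈ M := by
    have := hall (Sum.inr y5)
    simp only [List.cons_append, List.nil_append, List.mem_cons, reduceCtorEq, Sum.inr.injEq,
      hy5.1, hy5.2.1, hy5.2.2.1, hy5.2.2.2, false_or] at this
    exact this
  let p : ({x : V // x ≠ g} ⊕ {y : W // y ≠ h}) → Prop := fun v => v.isRight
  have hex : ∃ a ∈ M, p a := ⟨_, hy5M, rfl⟩
  obtain ⟨M1, u, M2, eM, pu, hM1⟩ := split_first p M hex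
  obtain ⟨N1, v, N2, eN, pv, hN2⟩ := split_last p M hex
  rcases u with u | u
  · exact absurd pu (by simp [p])
  rcases v with v | v
  · exact absurd pv (by simp [p])
  have hndM := hnd
  simp only [List.cons_append, List.nil_append, List.nodup_cons, List.mem_cons, reduceCtorEq,
    Sum.inr.injEq, Sum.inl.injEq, false_or, not_or] at hndM
  obtain ⟨⟨-, hxM⟩, ⟨-, -, -, hy1M⟩, -, -, hy4M, hx'M, hMnd⟩ := hndM
  have hxx' : x ≠ x' := by
    intro e
    rw [e] at r1
    exact h14 (Subtype.ext (hR.uL _ _ _ r1 r4))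
  have huM : Sum.inr u ∈ M := by rw [eM]; simp
  have hvM : Sum.inr v ∈ M := by rw [eN]; simp
  have hu1 : u ≠ y1 := by rintro rfl; exact hy1M huM
  have hu4 : u ≠ y4 := by rintro rfl; exact hy4M huM
  have hv1 : v ≠ y1 := by rintro rfl; exact hy1M hvM
  have hv4 : v ≠ y4 := by rintro rfl; exact hy4M hvM
  -- predecessor of the first right vertex of `M`
  have hchM : (Sum.inl x' :: M).IsChain (star G g H h R).Adj := by
    simp only [List.cons_append, List.nil_append, isChain_cons_cons] at hch
    exact hch.2.2.2.2.2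
  have pred : ∃ a : {x : V // x ≠ g}, (Sum.inl a ∈ Sum.inl x' :: M1) ∧ R a u := by
    have hc : ((Sum.inl x' :: M1) ++ (Sum.inr u :: M2)).IsChain (star G g H h R).Adj := by
      rw [List.cons_append, ← eM]; exact hchM
    rw [isChain_append] at hc
    have hne : (Sum.inl x' :: M1 : List ({x : V // x ≠ g} ⊕ {y : W // y ≠ h})) ≠ [] := by simp
    have hadj := hc.2.2 _ (by rw [List.getLast?_eq_getLast_of_ne_nil hne]; rfl) (Sum.inr u) (by simp)
    have hmem := List.getLast_mem hne
    generalize (Sum.inl x' :: M1).getLast hne = b at hadj hmem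
    rcases b with b | b
    · exact ⟨b, hmem, hadj⟩
    · exfalso
      rcases List.mem_cons.1 hmem with e | e
      · exact absurd e (by simp)
      · exact hM1 _ e rfl
  -- successor of the last right vertex of `M`
  have succ : ∃ b : {x : V // x ≠ g}, (Sum.inl b ∈ N2 ∨ b = x) ∧ R b v := by
    rcases N2 with _ | ⟨b, N2⟩
    · refine ⟨x, Or.inr rfl, ?_⟩
      have := hcl (Sum.inr v) (by rw [eN, ← List.append_assoc, List.getLast?_concat]; rfl)
        (Sum.inl x) (by simp)
      exact this
    · rcases b with b | b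
      · refine ⟨b, Or.inl (by simp), ?_⟩
        rw [eN] at hchM
        have hc := (isChain_cons.1 hchM).2
        rw [isChain_append] at hc
        have := (isChain_cons.1 hc.2.1).1 (Sum.inl b) (by simp)
        exact this
      · exact absurd rfl (hN2 (Sum.inr b) (by simp))
  obtain ⟨a, ha, hau⟩ := pred
  obtain ⟨b, hb, hbv⟩ := succ
  have huv : u = v := third u v (hR.right _ _ hau) (hR.right _ _ hbv) hu1 hu4 hv1 hv4
  subst huv
  have hab : a = b := Subtype.ext (hR.uR _ _ _ hau hbv)
  subst hab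
  -- `M1 = N1` and `M2 = N2`
  have hMnd' := hMnd
  rw [eM, List.nodup_middle] at hMnd'
  have hu12 := (List.nodup_cons.1 hMnd').1
  rw [List.mem_append, not_or] at hu12
  have heq : M1 = N1 ∧ M2 = N2 := by
    have e := eM.symm.trans eN
    have := (List.append_cons_inj_of_notMem hu12.1 hu12.2).1 e
    exact ⟨this.1, this.2.2⟩
  obtain ⟨rfl, rfl⟩ := heq
  rcases hb with hb | hb
  · rcases List.mem_cons.1 ha with e | e
    · have e' : a = x' := Sum.inl_injective e
      subst e'
      apply hx'M
      rw [eM]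
      simp [hb]
    · have hd := (List.nodup_append.1 (List.nodup_cons.1 hMnd').2).2.2 _ e _ hb
      exact hd rfl
  · subst hb
    rcases List.mem_cons.1 ha with e | e
    · exact hxx' (Sum.inl_injective e)
    · apply hxM
      rw [eM]
      simp [e]

end upper

section dodecahedron

/-- The neighbours of the vertices of the dodecahedron, as the generalized Petersen graph
`GP(10,2)`. -/
def nb : Fin 20 → List (Fin 20) :=
  ![[1, 9, 10], [2, 0, 11], [3, 1, 12], [4, 2, 13],
    [5, 3, 14], [6, 4, 15], [7, 5, 16], [8, 6, 17], [9, 7, 18], [0, 8, 19], [0, 12, 18], [1, 13, 19], [2, 14, 10], [3, 15, 11], [4, 16, 12], [5, 17, 13], [6, 18, 14], [7, 19, 15], [8, 10, 16], [9, 11, 17]]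

/-- The dodecahedron. -/
def D : SimpleGraph (Fin 20) where
  Adj u v := v ∈ nb u
  symm := ⟨by decide⟩
  loopless := ⟨by decide⟩

instance : DecidableRel D.Adj := fun u v => inferInstanceAs (Decidable (v ∈ nb u))

def rhoF : Fin 20 → Fin 20 := ![1, 2, 3, 4, 5, 6, 7, 8, 9, 0, 11, 12, 13, 14, 15, 16, 17, 18, 19, 10]
def rhoI : Fin 20 → Fin 20 := ![9, 0, 1, 2, 3, 4, 5, 6, 7, 8, 19, 10, 11, 12, 13, 14, 15, 16, 17, 18]

/-- The rotation of order 10. -/
def rho : D ≃g D where
  toFun := rhoF
  invFun := rhoI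
  left_inv := by unfold Function.LeftInverse; decide
  right_inv := by unfold Function.RightInverse Function.LeftInverse; decide
  map_rel_iff' := by
    intro a b
    revert a b
    show ∀ a b : Fin 20, rhoF b ∈ nb (rhoF a) ↔ b ∈ nb a
    decide

/-- Hamiltonian cycles through vertex 0 (with this vertex removed). -/
def tab0 : List (List (Fin 20)) := [
  [1, 2, 3, 4, 5, 6, 7, 17, 15, 13, 11, 19, 9, 8, 18, 16, 14, 12, 10],
  [1, 2, 3, 13, 11, 19, 9, 8, 18, 16, 6, 7, 17, 15, 5, 4, 14, 12, 10],
  [1, 2, 12, 10, 18, 8, 7, 17, 15, 5, 6, 16, 14, 4, 3, 13, 11, 19, 9],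
  [1, 2, 12, 14, 4, 3, 13, 11, 19, 9, 8, 7, 17, 15, 5, 6, 16, 18, 10],
  [1, 11, 19, 17, 7, 6, 16, 14, 4, 5, 15, 13, 3, 2, 12, 10, 18, 8, 9],
  [1, 11, 19, 9, 8, 7, 17, 15, 13, 3, 2, 12, 14, 4, 5, 6, 16, 18, 10],
  [1, 11, 13, 3, 2, 12, 10, 18, 8, 7, 6, 16, 14, 4, 5, 15, 17, 19, 9],
  [1, 11, 13, 15, 5, 4, 3, 2, 12, 14, 16, 6, 7, 17, 19, 9, 8, 18, 10],
  [10, 18, 16, 14, 12, 2, 1, 11, 19, 17, 15, 13, 3, 4, 5, 6, 7, 8, 9],
  [10, 18, 16, 6, 5, 4, 14, 12, 2, 3, 13, 15, 17, 7, 8, 9, 19, 11, 1],
  [10, 18, 8, 9, 19, 11, 13, 3, 4, 5, 15, 17, 7, 6, 16, 14, 12, 2, 1],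
  [10, 18, 8, 7, 6, 16, 14, 12, 2, 1, 11, 13, 3, 4, 5, 15, 17, 19, 9],
  [10, 12, 2, 1, 11, 13, 3, 4, 14, 16, 18, 8, 7, 6, 5, 15, 17, 19, 9],
  [10, 12, 2, 3, 4, 14, 16, 18, 8, 9, 19, 17, 7, 6, 5, 15, 13, 11, 1],
  [10, 12, 14, 16, 18, 8, 7, 6, 5, 4, 3, 2, 1, 11, 13, 15, 17, 19, 9],
  [10, 12, 14, 4, 3, 2, 1, 11, 13, 15, 5, 6, 16, 18, 8, 7, 17, 19, 9],
  [9, 8, 18, 16, 6, 7, 17, 19, 11, 1, 2, 3, 13, 15, 5, 4, 14, 12, 10],
  [9, 8, 18, 10, 12, 2, 3, 13, 15, 5, 4, 14, 16, 6, 7, 17, 19, 11, 1],
  [9, 8, 7, 17, 19, 11, 1, 2, 12, 14, 4, 3, 13, 15, 5, 6, 16, 18, 10],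
  [9, 8, 7, 6, 5, 4, 3, 13, 15, 17, 19, 11, 1, 2, 12, 14, 16, 18, 10],
  [9, 19, 17, 7, 8, 18, 10, 12, 2, 3, 4, 14, 16, 6, 5, 15, 13, 11, 1],
  [9, 19, 17, 15, 5, 4, 3, 13, 11, 1, 2, 12, 14, 16, 6, 7, 8, 18, 10],
  [9, 19, 11, 1, 2, 3, 13, 15, 17, 7, 8, 18, 16, 6, 5, 4, 14, 12, 10],
  [9, 19, 11, 13, 3, 4, 14, 16, 6, 5, 15, 17, 7, 8, 18, 10, 12, 2, 1]]

/-- Hamiltonian cycles through vertex 10 (with this vertex removed). -/
def tab10 : List (List (Fin 20)) := [
  [0, 1, 2, 3, 4, 5, 6, 7, 17, 15, 13, 11, 19, 9, 8, 18, 16, 14, 12],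
  [0, 1, 2, 12, 14, 4, 3, 13, 11, 19, 9, 8, 7, 17, 15, 5, 6, 16, 18],
  [0, 1, 11, 19, 9, 8, 7, 17, 15, 13, 3, 2, 12, 14, 4, 5, 6, 16, 18],
  [0, 1, 11, 13, 3, 2, 12, 14, 4, 5, 15, 17, 19, 9, 8, 7, 6, 16, 18],
  [0, 9, 8, 18, 16, 6, 7, 17, 19, 11, 1, 2, 3, 13, 15, 5, 4, 14, 12],
  [0, 9, 8, 7, 6, 5, 4, 3, 13, 15, 17, 19, 11, 1, 2, 12, 14, 16, 18],
  [0, 9, 19, 17, 7, 8, 18, 16, 6, 5, 15, 13, 11, 1, 2, 3, 4, 14, 12],
  [0, 9, 19, 11, 1, 2, 3, 13, 15, 17, 7, 8, 18, 16, 6, 5, 4, 14, 12],
  [18, 16, 14, 12, 2, 1, 11, 19, 17, 15, 13, 3, 4, 5, 6, 7, 8, 9, 0],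
  [18, 16, 14, 4, 3, 13, 11, 19, 17, 15, 5, 6, 7, 8, 9, 0, 1, 2, 12],
  [18, 16, 6, 5, 4, 14, 12, 2, 3, 13, 15, 17, 7, 8, 9, 19, 11, 1, 0],
  [18, 16, 6, 7, 8, 9, 0, 1, 2, 3, 13, 11, 19, 17, 15, 5, 4, 14, 12],
  [18, 8, 9, 0, 1, 2, 3, 4, 5, 15, 13, 11, 19, 17, 7, 6, 16, 14, 12],
  [18, 8, 9, 19, 11, 13, 3, 4, 5, 15, 17, 7, 6, 16, 14, 12, 2, 1, 0],
  [18, 8, 7, 17, 15, 5, 6, 16, 14, 4, 3, 13, 11, 19, 9, 0, 1, 2, 12],
  [18, 8, 7, 6, 16, 14, 4, 5, 15, 17, 19, 9, 0, 1, 11, 13, 3, 2, 12],
  [12, 2, 1, 0, 9, 8, 7, 6, 5, 15, 17, 19, 11, 13, 3, 4, 14, 16, 18],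
  [12, 2, 1, 11, 13, 3, 4, 14, 16, 18, 8, 7, 6, 5, 15, 17, 19, 9, 0],
  [12, 2, 3, 4, 14, 16, 6, 5, 15, 13, 11, 1, 0, 9, 19, 17, 7, 8, 18],
  [12, 2, 3, 13, 11, 1, 0, 9, 19, 17, 15, 5, 4, 14, 16, 6, 7, 8, 18],
  [12, 14, 16, 18, 8, 7, 6, 5, 4, 3, 2, 1, 11, 13, 15, 17, 19, 9, 0],
  [12, 14, 16, 6, 5, 4, 3, 2, 1, 0, 9, 19, 11, 13, 15, 17, 7, 8, 18],
  [12, 14, 4, 3, 2, 1, 0, 9, 8, 7, 17, 19, 11, 13, 15, 5, 6, 16, 18],
  [12, 14, 4, 5, 6, 16, 18, 8, 7, 17, 15, 13, 3, 2, 1, 11, 19, 9, 0]]

def chk (L : List (Fin 20)) : Bool :=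
  decide (3 ≤ L.length) && decide L.Nodup && decide (∀ v, v ∈ L) && decide (L.IsChain D.Adj) &&
    (match L.getLast?, L.head? with
      | some a, some b => decide (D.Adj a b)
      | _, _ => false)

theorem chk_sound {L : List (Fin 20)} (h : chk L = true) : HamCyc D L := by
  unfold chk at h
  simp only [Bool.and_eq_true, decide_eq_true_eq] at h
  obtain ⟨⟨⟨⟨h1, h2⟩, h3⟩, h4⟩, h5⟩ := h
  refine ⟨h1, h2, h3, h4, ?_⟩
  intro a ha b hb
  rw [Option.mem_def] at ha hb
  rw [ha, hb] at h5
  simpa using h5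

def step (v : Fin 20) (s : List (Fin 20)) : Option (List (Fin 20)) :=
  match s with
  | w :: s' => if w = v then some s' else none
  | [] => none

def ok : ℕ → List (Fin 20) → Fin 20 → List (List (Fin 20)) → Bool
  | 0, _, _, _ => true
  | n + 1, used, x, T => (nb x).all fun v =>
      used.contains v || (!(T.filterMap (step v)).isEmpty && ok n (v :: used) v (T.filterMap (step v)))

theorem ok_sound (n : ℕ) : ∀ (pre used : List (Fin 20)) (x : Fin 20) (T : List (List (Fin 20))),
    (∀ s ∈ T, HamCyc D (pre ++ x :: s)) → ok n used x T = true →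
    (∀ v ∈ used, v ∈ pre ++ [x]) → T ≠ [] →
    ∀ E : List (Fin 20), E.length ≤ n → (pre ++ x :: E).Nodup → (x :: E).IsChain D.Adj →
      LiesOnHam D (pre ++ x :: E) := by
  induction n with
  | zero =>
    intro pre used x T hT _ _ hne E hE hnd hch
    have : E = [] := by simpa using hE
    subst this
    obtain ⟨s, T', rfl⟩ := List.exists_cons_of_ne_nil hne
    exact ⟨s, by simpa using hT s (by simp)⟩
  | succ n ih =>
    intro pre used x T hT hok hused hne E hE hnd hch
    rcases E with _ | ⟨v, E⟩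
    · obtain ⟨s, T', rfl⟩ := List.exists_cons_of_ne_nil hne
      exact ⟨s, by simpa using hT s (by simp)⟩
    · have hv : v ∈ nb x := by
        simp only [isChain_cons_cons] at hch
        exact hch.1
      unfold ok at hok
      rw [List.all_eq_true] at hok
      have h1 := hok v hv
      rw [Bool.or_eq_true, Bool.and_eq_true] at h1
      rcases h1 with h1 | h1
      · exfalso
        have hvu : v ∈ used := by simpa using h1
        have := hused v hvu
        have e1 : pre ++ x :: v :: E = (pre ++ [x]) ++ v :: E := by simp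
        rw [e1, List.nodup_append] at hnd
        exact hnd.2.2 v this v (by simp) rfl
      · have hne' : T.filterMap (step v) ≠ [] := by
          have := h1.1
          intro e
          rw [e] at this
          simp at this
        have := ih (pre ++ [x]) (v :: used) v (T.filterMap (step v)) ?_ h1.2 ?_ hne' E
          (by simp at hE; omega) (by simpa using hnd)
          (by simp only [isChain_cons_cons] at hch; exact hch.2)
        · simpa using this
        · intro s hs
          rw [List.mem_filterMap] at hs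
          obtain ⟨t, ht, hst⟩ := hs
          rcases t with _ | ⟨w, t⟩
          · simp [step] at hst
          · simp only [step] at hst
            split_ifs at hst with hw
            · simp only [Option.some.injEq] at hst
              subst hst; subst hw
              simpa using hT _ ht
        · intro w hw
          rcases List.mem_cons.1 hw with rfl | hw
          · simp
          · have := hused w hw
            rw [List.mem_append]
            exact Or.inl this

/-- All paths of order at most 5 starting at `v` lie on Hamiltonian cycles. -/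
def Starts (v : Fin 20) : Prop :=
  ∀ E : List (Fin 20), E.length ≤ 4 → (v :: E).Nodup → (v :: E).IsChain D.Adj →
    LiesOnHam D (v :: E)

theorem starts0 : Starts 0 := by
  intro E hE hnd hch
  have h1 : ∀ s ∈ tab0, chk (0 :: s) = true := by decide +kernel
  have h2 : ok 4 [0] 0 tab0 = true := by decide +kernel
  have := ok_sound 4 [] [0] 0 tab0 (fun s hs => by simpa using chk_sound (h1 s hs)) h2
    (by simp) (by decide) E hE (by simpa using hnd) hch
  simpa using this

theorem starts10 : Starts 10 := by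
  intro E hE hnd hch
  have h1 : ∀ s ∈ tab10, chk (10 :: s) = true := by decide +kernel
  have h2 : ok 4 [10] 10 tab10 = true := by decide +kernel
  have := ok_sound 4 [] [10] 10 tab10 (fun s hs => by simpa using chk_sound (h1 s hs)) h2
    (by simp) (by decide) E hE (by simpa using hnd) hch
  simpa using this

theorem starts_step {v : Fin 20} (hv : Starts v) : Starts (rho v) := by
  intro E hE hnd hch
  have h1 : IsPathList D (rho v :: E) := ⟨by simp, hnd, hch⟩
  have h2 := path_iso rho.symm h1
  have e : (rho v :: E).map rho.symm = v :: E.map rho.symm := by simp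
  rw [e] at h2
  have h3 := lies_iso rho (hv (E.map rho.symm) (by simpa using hE) h2.2.1 h2.2.2)
  rw [← e, List.map_map] at h3
  have e2 : (rho ∘ rho.symm : Fin 20 → Fin 20) = id := by funext x; simp
  rw [e2, List.map_id] at h3
  exact h3

theorem starts (v : Fin 20) : Starts v := by
  have a0 := starts0
  have a1 : Starts 1 := starts_step a0
  have a2 : Starts 2 := starts_step a1
  have a3 : Starts 3 := starts_step a2
  have a4 : Starts 4 := starts_step a3
  have a5 : Starts 5 := starts_step a4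
  have a6 : Starts 6 := starts_step a5
  have a7 : Starts 7 := starts_step a6
  have a8 : Starts 8 := starts_step a7
  have a9 : Starts 9 := starts_step a8
  have b0 := starts10
  have b1 : Starts 11 := starts_step b0
  have b2 : Starts 12 := starts_step b1
  have b3 : Starts 13 := starts_step b2
  have b4 : Starts 14 := starts_step b3
  have b5 : Starts 15 := starts_step b4
  have b6 : Starts 16 := starts_step b5
  have b7 : Starts 17 := starts_step b6
  have b8 : Starts 18 := starts_step b7
  have b9 : Starts 19 := starts_step b8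
  fin_cases v
  exacts [a0, a1, a2, a3, a4, a5, a6, a7, a8, a9, b0, b1, b2, b3, b4, b5, b6, b7, b8, b9]

theorem D_good : Good D where
  deg := by
    intro v
    have h : ∀ v : Fin 20, ∃ a b c : Fin 20, nb v = [a, b, c] ∧ a ≠ b ∧ a ≠ c ∧ b ≠ c := by
      intro v
      fin_cases v <;> exact ⟨_, _, _, rfl, by decide, by decide, by decide⟩
    obtain ⟨a, b, c, e, h1, h2, h3⟩ := h v
    refine ⟨a, b, c, h1, h2, h3, fun w => ?_⟩
    show w ∈ nb v ↔ _
    rw [e]; simp
  noTri := by
    have h : ∀ x : Fin 20, ∀ y ∈ nb x, ∀ z ∈ nb y, x ∉ nb z := by decide +kernel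
    intro x y z hxy hyz hzx
    exact h x y hxy z hyz hzx
  noC4 := by
    have h : ∀ x : Fin 20, ∀ y ∈ nb x, ∀ z ∈ nb y, ∀ w ∈ nb z, x ∈ nb w → x = z ∨ y = w := by
      decide +kernel
    intro x y z w h1 h2 h3 h4
    exact h x y h1 z h2 w h3 h4
  ext := by
    intro P hP hlen
    obtain ⟨v, E, rfl⟩ := List.exists_cons_of_ne_nil hP.1
    exact starts v E (by simp at hlen; omega) hP.2.1 hP.2.2

end dodecahedron

section final

theorem exists_match {V W : Type*} {G : SimpleGraph V} {H : SimpleGraph W} (gG : Good G)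
    (gH : Good H) (g : V) (h : W) : ∃ R : V → W → Prop, IsMatch G g H h R := by
  obtain ⟨a, b, c, hab, hac, hbc, hw⟩ := gG.deg g
  obtain ⟨a', b', c', hab', hac', hbc', hw'⟩ := gH.deg h
  refine ⟨fun x y => (x = a ∧ y = a') ∨ (x = b ∧ y = b') ∨ (x = c ∧ y = c'), ?_, ?_, ?_, ?_, ?_, ?_⟩
  · rintro x y (⟨rfl, rfl⟩ | ⟨rfl, rfl⟩ | ⟨rfl, rfl⟩) <;> rw [hw] <;> simp
  · rintro x y (⟨rfl, rfl⟩ | ⟨rfl, rfl⟩ | ⟨rfl, rfl⟩) <;> rw [hw'] <;> simp
  · intro x hx
    rcases (hw x).1 hx with rfl | rfl | rfl
    · exact ⟨a', Or.inl ⟨rfl, rfl⟩⟩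
    · exact ⟨b', Or.inr (Or.inl ⟨rfl, rfl⟩)⟩
    · exact ⟨c', Or.inr (Or.inr ⟨rfl, rfl⟩)⟩
  · intro y hy
    rcases (hw' y).1 hy with rfl | rfl | rfl
    · exact ⟨a, Or.inl ⟨rfl, rfl⟩⟩
    · exact ⟨b, Or.inr (Or.inl ⟨rfl, rfl⟩)⟩
    · exact ⟨c, Or.inr (Or.inr ⟨rfl, rfl⟩)⟩
  · rintro x y y' (⟨rfl, rfl⟩ | ⟨rfl, rfl⟩ | ⟨rfl, rfl⟩) (⟨h1, rfl⟩ | ⟨h1, rfl⟩ | ⟨h1, rfl⟩)
    all_goals first
      | rfl
      | exact absurd h1 hab
      | exact absurd h1 hac
      | exact absurd h1 hbc
      | exact absurd h1.symm hab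
      | exact absurd h1.symm hac
      | exact absurd h1.symm hbc
  · rintro x x' y (⟨rfl, rfl⟩ | ⟨rfl, rfl⟩ | ⟨rfl, rfl⟩) (⟨rfl, h1⟩ | ⟨rfl, h1⟩ | ⟨rfl, h1⟩)
    all_goals first
      | rfl
      | exact absurd h1 hab'
      | exact absurd h1 hac'
      | exact absurd h1 hbc'
      | exact absurd h1.symm hab'
      | exact absurd h1.symm hac'
      | exact absurd h1.symm hbc'

/-- Good graphs of arbitrarily large order. -/
theorem exists_good (N : ℕ) : ∃ (V : Type) (_ : Fintype V) (G : SimpleGraph V), Good G ∧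
    N ≤ Fintype.card V ∧ 20 ≤ Fintype.card V := by
  induction N with
  | zero => exact ⟨Fin 20, inferInstance, D, D_good, by simp, by simp⟩
  | succ N ih =>
    obtain ⟨V, iV, G, gG, hN, h20⟩ := ih
    classical
    have : Nonempty V := Fintype.card_pos_iff.1 (by omega)
    obtain ⟨g⟩ := this
    obtain ⟨R, hR⟩ := exists_match gG D_good g (0 : Fin 20)
    refine ⟨_, inferInstance, star G g D 0 R, star_good gG D_good hR, ?_, ?_⟩
    · rw [Fintype.card_sum, Fintype.card_subtype_compl, Fintype.card_subtype_compl]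
      simp
      omega
    · rw [Fintype.card_sum, Fintype.card_subtype_compl, Fintype.card_subtype_compl]
      simp
      omega

/-- The star product of a good graph with the dodecahedron has extension number 5. -/
theorem star_he {V : Type*} [Fintype V] [DecidableEq V] {G : SimpleGraph V} (gG : Good G) {g : V}
    {R : V → Fin 20 → Prop} (hR : IsMatch G g D 0 R)
    (hc : 5 ≤ Fintype.card ({x : V // x ≠ g} ⊕ {y : Fin 20 // y ≠ 0})) :
    IsHamExtNumber (star G g D 0 R) 5 := by
  refine ⟨⟨by norm_num, hc, fun P hP hlen => star_ext gG D_good hR P hP hlen⟩, ?_⟩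
  rintro k ⟨-, -, hk⟩
  by_contra hlt
  rw [not_le] at hlt
  have a1 : D.Adj 0 1 := by decide
  have a9 : D.Adj 0 9 := by decide
  obtain ⟨x, r1⟩ := hR.exR 1 a1
  obtain ⟨x', r4⟩ := hR.exR 9 a9
  have hx : x ≠ g := fun e => G.irrefl (e ▸ hR.left _ _ r1)
  have hx' : x' ≠ g := fun e => G.irrefl (e ▸ hR.left _ _ r4)
  have hxx' : x ≠ x' := by
    intro e
    rw [e] at r1
    have := hR.uL _ _ _ r1 r4
    exact absurd this (by decide)
  let y1 : {y : Fin 20 // y ≠ 0} := ⟨1, by decide⟩
  let y2 : {y : Fin 20 // y ≠ 0} := ⟨11, by decide⟩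
  let y3 : {y : Fin 20 // y ≠ 0} := ⟨19, by decide⟩
  let y4 : {y : Fin 20 // y ≠ 0} := ⟨9, by decide⟩
  let y5 : {y : Fin 20 // y ≠ 0} := ⟨5, by decide⟩
  have hno := not_lies D_good hR ⟨x, hx⟩ ⟨x', hx'⟩ y1 y2 y3 y4 y5 r1 r4 (by decide) (by decide)
  apply hno
  refine hk _ ⟨by simp, ?_, ?_⟩ (by simp; omega)
  · have hd : ([y1, y2, y3, y4].map Sum.inr :
        List ({x : V // x ≠ g} ⊕ {y : Fin 20 // y ≠ 0})).Nodup := by
      apply List.Nodup.map Sum.inr_injective
      decide
    simp only [List.map_cons, List.map_nil] at hd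
    simp only [List.nodup_cons, List.mem_cons, reduceCtorEq, Sum.inl.injEq, Subtype.mk.injEq, hxx',
      List.not_mem_nil, or_self, not_false_eq_true, true_and, or_false,
      List.nodup_nil, and_true] at hd ⊢
    exact hd
  · simp only [isChain_cons_cons, List.isChain_singleton, and_true, star_lr, star_rl, star_rr]
    exact ⟨r1, by decide, by decide, by decide, r4⟩

theorem good_iso {V W : Type*} {G : SimpleGraph V} {H : SimpleGraph W} (φ : G ≃g H) {k : ℕ}
    (h : ∀ P : List V, IsPathList G P → P.length ≤ k → LiesOnHam G P) :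
    ∀ P : List W, IsPathList H P → P.length ≤ k → LiesOnHam H P := by
  intro P hP hlen
  have h1 := lies_iso φ (h (P.map φ.symm) (path_iso φ.symm hP) (by simpa using hlen))
  rw [List.map_map] at h1
  have e2 : (φ ∘ φ.symm : W → W) = id := by funext x; simp
  rw [e2, List.map_id] at h1
  exact h1

theorem he_iso {V W : Type*} [Fintype V] [Fintype W] {G : SimpleGraph V} {H : SimpleGraph W}
    (φ : G ≃g H) {k : ℕ} (h : IsHamExtNumber G k) : IsHamExtNumber H k := by
  have hc : Fintype.card V = Fintype.card W := Fintype.card_congr φ.toEquiv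
  refine ⟨⟨h.1.1, hc ▸ h.1.2.1, good_iso φ h.1.2.2⟩, ?_⟩
  rintro j ⟨h1, h2, h3⟩
  exact h.2 ⟨h1, hc ▸ h2, good_iso φ.symm h3⟩

/-- **Answer to Q1: yes.** For every `N` there is a 3-regular Hamiltonian graph on at least `N`
vertices with Hamiltonian extension number 5. -/
theorem result : ∀ N : ℕ, ∃ n : ℕ, N ≤ n ∧ ∃ (G : SimpleGraph (Fin n)) (_ : DecidableRel G.Adj),
    G.IsRegularOfDegree 3 ∧ (∃ L : List (Fin n), HamCyc G L) ∧ IsHamExtNumber G 5 := by
  intro N
  classical
  obtain ⟨V, iV, G, gG, hN, h20⟩ := exists_good N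
  have : Nonempty V := Fintype.card_pos_iff.1 (by omega)
  obtain ⟨g⟩ := this
  obtain ⟨R, hR⟩ := exists_match gG D_good g (0 : Fin 20)
  have hcard : Fintype.card ({x : V // x ≠ g} ⊕ {y : Fin 20 // y ≠ 0}) =
      Fintype.card V - 1 + 19 := by
    rw [Fintype.card_sum, Fintype.card_subtype_compl, Fintype.card_subtype_compl]
    simp
  have hhe := star_he gG hR (by omega)
  have hgood := star_good gG D_good hR
  set K := star G g D 0 R with hK
  let φ := K.overFinIso (rfl : Fintype.card ({x : V // x ≠ g} ⊕ {y : Fin 20 // y ≠ 0}) = _)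
  refine ⟨_, ?_, K.overFin rfl, inferInstance, ?_, ?_, he_iso φ hhe⟩
  · omega
  · intro w
    obtain ⟨a, b, c, hab, hac, hbc, hw⟩ := hgood.deg (φ.symm w)
    have : (K.overFin rfl).neighborFinset w = {φ a, φ b, φ c} := by
      ext u
      rw [SimpleGraph.mem_neighborFinset]
      have h1 : (K.overFin rfl).Adj w u ↔ K.Adj (φ.symm w) (φ.symm u) := by
        rw [φ.symm.map_adj_iff]
      rw [h1, hw]
      simp only [RelIso.symm_apply_eq, Finset.mem_insert, Finset.mem_singleton]
    rw [← SimpleGraph.card_neighborFinset_eq_degree, this]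
    rw [Finset.card_eq_three]
    exact ⟨φ a, φ b, φ c, fun e => hab (φ.injective e), fun e => hac (φ.injective e),
      fun e => hbc (φ.injective e), rfl⟩
  · obtain ⟨M, hM⟩ := hhe.1.2.2 [Sum.inr ⟨1, by decide⟩] ⟨by simp, by simp, by simp⟩ (by simp)
    exact ⟨_, ham_iso φ hM⟩

end final

end Pool.Agent.Results.MP_b9f640_co.StarProducts
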